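import Pool.Agent.MP_db5b97_nt.H85.Spec2

/-! The Herbrand quotient of a group of units of finite index. -/

namespace Pool.Agent.MP_db5b97_nt.H79

open NumberField IsDedekindDomain H85

section Idx

variable {V : Type} [AddCommGroup V]

theorem idx_split (A E : AddSubgroup V) (h : A ≤ E) (f : V →+ V) :
    (A ⊓ f.ker).relIndex (E ⊓ f.ker) * (A.map f).relIndex (E.map f) = A.relIndex E := by
  have e1 : (A ⊓ f.ker).relIndex (E ⊓ f.ker) = A.relIndex (A ⊔ (E ⊓ f.ker)) := by
    rw [AddSubgroup.relIndex_sup_left, ← AddSubgroup.inf_relIndex_right A,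
      ← AddSubgroup.inf_relIndex_right (A ⊓ f.ker)]
    congr 1
    rw [inf_assoc, inf_comm f.ker, inf_assoc, inf_idem]
  have e2 : (A.map f).relIndex (E.map f) = (A ⊔ (E ⊓ f.ker)).relIndex E := by
    rw [← AddSubgroup.relIndex_comap, AddSubgroup.comap_map_eq,
      ← AddSubgroup.inf_relIndex_right (A ⊔ f.ker), sup_inf_assoc_of_le _ h, inf_comm]
  rw [e1, e2]
  exact AddSubgroup.relIndex_mul_relIndex _ _ _ le_sup_left (sup_le h inf_le_left)

theorem idx_hs (A E : AddSubgroup V) (h : A ≤ E) (f g : V →+ V) (hfg : ∀ x, f (g x) = 0)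
    (hA : ∀ x ∈ A, g x ∈ A) (hE : ∀ x ∈ E, g x ∈ E) :
    hs A f g * (A ⊓ f.ker).relIndex (E ⊓ f.ker) = (A.map g).relIndex (E.map g) * hs E f g := by
  unfold hs
  rw [AddSubgroup.relIndex_mul_relIndex, AddSubgroup.relIndex_mul_relIndex]
  · exact AddSubgroup.map_mono h
  · rintro _ ⟨x, hx, rfl⟩
    exact ⟨hE x hx, hfg x⟩
  · rintro _ ⟨x, hx, rfl⟩
    exact ⟨hA x hx, hfg x⟩
  · exact inf_le_inf_right _ h

theorem hs_up (p : ℕ) (A E : AddSubgroup V) (h : A ≤ E) (hi : A.relIndex E ≠ 0) (f g : V →+ V)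
    (hfg : ∀ x, f (g x) = 0) (hgf : ∀ x, g (f x) = 0)
    (hAf : ∀ x ∈ A, f x ∈ A) (hAg : ∀ x ∈ A, g x ∈ A) (hEf : ∀ x ∈ E, f x ∈ E)
    (hEg : ∀ x ∈ E, g x ∈ E) (h1 : p * hs A f g = hs A g f) (h2 : hs A g f ≠ 0) :
    p * hs E f g = hs E g f ∧ hs E g f ≠ 0 := by
  have s1 := idx_split A E h f
  have s2 := idx_split A E h g
  have t1 := idx_hs A E h f g hfg hAg hEg
  have t2 := idx_hs A E h g f hgf hAf hEf
  set a1 := (A ⊓ f.ker).relIndex (E ⊓ f.ker)
  set a2 := (A ⊓ g.ker).relIndex (E ⊓ g.ker)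
  set b1 := (A.map f).relIndex (E.map f)
  set b2 := (A.map g).relIndex (E.map g)
  refine ⟨Nat.eq_of_mul_eq_mul_left (Nat.pos_of_ne_zero hi) ?_, fun h0 => ?_⟩
  · calc A.relIndex E * (p * hs E f g) = a2 * p * (b2 * hs E f g) := by rw [← s2]; ring
      _ = a1 * ((p * hs A f g) * a2) := by rw [← t1]; ring
      _ = A.relIndex E * hs E g f := by rw [h1, t2, ← s1]; ring
  · rw [h0, mul_zero] at t2
    rcases Nat.mul_eq_zero.1 t2 with h | h
    · exact h2 h
    · exact hi (by rw [← s2, h, zero_mul])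

theorem hc_sub (A : AddSubgroup V) (f g : V →+ V) (f' g' : A →+ A)
    (hf : ∀ x, (f' x : V) = f x) (hg : ∀ x, (g' x : V) = g x) : hc f' g' = hs A f g := by
  unfold hc hs
  rw [← AddSubgroup.relIndex_map_map_of_injective _ _ A.subtype_injective]
  congr 1
  · ext y
    constructor
    · rintro ⟨_, ⟨x, rfl⟩, rfl⟩
      exact ⟨x, x.2, (hg x).symm⟩
    · rintro ⟨x, hx, rfl⟩
      exact ⟨g' ⟨x, hx⟩, ⟨_, rfl⟩, hg _⟩
  · ext y
    constructor
    · rintro ⟨x, hx, rfl⟩
      refine ⟨x.2, ?_⟩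
      show f x = 0
      rw [← hf, (AddMonoidHom.mem_ker).1 hx]
      rfl
    · rintro ⟨hy, hy'⟩
      exact ⟨⟨y, hy⟩, Subtype.ext ((hf _).trans hy'), rfl⟩

theorem rank_fin {M : Type} [AddCommGroup M] [Module.Finite ℤ M] (W : AddSubgroup M)
    (h : W.index ≠ 0) : Module.finrank ℤ W = Module.finrank ℤ M := by
  have h1 := Submodule.finrank_quotient_add_finrank W.toIntSubmodule
  have h2 : Module.finrank ℤ (M ⧸ W.toIntSubmodule) = 0 := by
    rw [Module.finrank_eq_zero_iff_isTorsion]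
    intro x
    refine ⟨⟨(W.index : ℤ), mem_nonZeroDivisors_of_ne_zero (by exact_mod_cast h)⟩, ?_⟩
    obtain ⟨y, rfl⟩ := Submodule.Quotient.mk_surjective _ x
    show (W.index : ℤ) • Submodule.Quotient.mk (p := W.toIntSubmodule) y = 0
    rw [← Submodule.Quotient.mk_smul, Submodule.Quotient.mk_eq_zero]
    show (W.index : ℤ) • y ∈ W
    rw [natCast_zsmul]
    exact W.nsmul_index_mem y
  rw [h2, zero_add] at h1
  exact h1

/-- identification of the source of an injective map with a subgroup -/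
noncomputable def eqv {M N : Type} [AddCommGroup M] [AddCommGroup N] (ι : M →+ V) (j : N →+ V)
    (hι : Function.Injective ι) (hj : Function.Injective j) (h : j.range ≤ ι.range) :
    N ≃+ j.range.comap ι :=
  (AddMonoidHom.ofInjective hj).trans
    (((j.range.comap ι).equivMapOfInjective ι hι).trans
      (AddEquiv.addSubgroupCongr (AddSubgroup.map_comap_eq_self h))).symm

theorem fin_of {M N : Type} [AddCommGroup M] [AddCommGroup N] [Module.Finite ℤ M] (ι : M →+ V)
    (j : N →+ V) (hι : Function.Injective ι) (hj : Function.Injective j) (h : j.range ≤ ι.range) :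
    Module.Finite ℤ N := by
  have : Module.Finite ℤ (j.range.comap ι) :=
    inferInstanceAs (Module.Finite ℤ (j.range.comap ι).toIntSubmodule)
  exact Module.Finite.equiv (eqv ι j hι hj h).toIntLinearEquiv.symm

theorem rank_of {M N : Type} [AddCommGroup M] [AddCommGroup N] [Module.Finite ℤ M] (ι : M →+ V)
    (j : N →+ V) (hι : Function.Injective ι) (hj : Function.Injective j) (h : j.range ≤ ι.range)
    (hi : j.range.relIndex ι.range ≠ 0) : Module.finrank ℤ N = Module.finrank ℤ M := by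
  rw [(eqv ι j hι hj h).toIntLinearEquiv.finrank_eq]
  exact rank_fin _ (by rwa [AddSubgroup.index_comap])

end Idx

section Un

variable (F : Type) [Field F] [NumberField F]

/-- the global units -/
noncomputable def io : Additive (𝓞 F)ˣ →+ Un F where
  toFun u := Un.mk ((Additive.toMul u : (𝓞 F)ˣ) : F) (Units.coe_ne_zero _)
  map_zero' := by ext; simp
  map_add' x y := by ext; simp

omit [NumberField F] in
theorem io_val (u : Additive (𝓞 F)ˣ) : (io F u).val = ((Additive.toMul u : (𝓞 F)ˣ) : F) := rfl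

omit [NumberField F] in
theorem io_inj : Function.Injective (io F) := fun _ _ h =>
  Additive.toMul.injective (Units.coe_injective F (congrArg Un.val h))

omit [NumberField F] in
theorem mem_io {x : Un F} : x ∈ (io F).range ↔ IsIntegral ℤ x.val ∧ IsIntegral ℤ x.val⁻¹ := by
  constructor
  · rintro ⟨u, rfl⟩
    refine ⟨RingOfIntegers.isIntegral_coe _, ?_⟩
    rw [← Un.val_neg, ← map_neg]
    exact RingOfIntegers.isIntegral_coe _
  · rintro ⟨h1, h2⟩
    refine ⟨Additive.ofMul ⟨⟨x.val, h1⟩, ⟨x.val⁻¹, h2⟩, ?_, ?_⟩, Un.ext rfl⟩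
    · exact RingOfIntegers.ext (mul_inv_cancel₀ x.val_ne)
    · exact RingOfIntegers.ext (inv_mul_cancel₀ x.val_ne)

theorem units_eq (l : ℕ) : Ru F l ⊓ (dv F l).ker = (io F).range := by
  have key : ∀ x : Un F, x ∈ Ru F l ⊓ (dv F l).ker ↔ ∀ w : Sp F, w.valuation F x.val = 1 := by
    intro x
    constructor
    · rintro ⟨h1, h2⟩ w
      by_cases hw : (l : 𝓞 F) ∈ w.asIdeal
      · exact h1 w hw
      · have := DFunLike.congr_fun ((AddMonoidHom.mem_ker).1 h2) ⟨w, hw⟩
        exact (ord_eq_zero_iff w x).1 this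
    · intro h
      refine ⟨fun w _ => h w, (AddMonoidHom.mem_ker).2 ?_⟩
      ext w
      exact (ord_eq_zero_iff w.1 x).2 (h w.1)
  have int : ∀ y : F, (∀ w : Sp F, w.valuation F y ≤ 1) → IsIntegral ℤ y := by
    intro y hy
    obtain ⟨a, rfl⟩ := HeightOneSpectrum.mem_integers_of_valuation_le_one F y hy
    exact RingOfIntegers.isIntegral_coe a
  ext x
  rw [key, mem_io]
  constructor
  · intro h
    exact ⟨int _ fun w => (h w).le, int _ fun w => by rw [map_inv₀, h w, inv_one]⟩
  · rintro ⟨h1, h2⟩ w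
    have a1 : w.valuation F x.val ≤ 1 := val_le_one w ⟨_, h1⟩
    have a2 : w.valuation F x.val⁻¹ ≤ 1 := val_le_one w ⟨_, h2⟩
    rw [map_inv₀, inv_le_one₀ (by simp [zero_lt_iff])] at a2
    exact le_antisymm a1 a2

theorem tors {x : Un F} (hx : x ∈ (io F).range) {m : ℕ} (hm : m ≠ 0) (h : m • x = 0) :
    Units.torsionOrder F • x = 0 := by
  obtain ⟨u, rfl⟩ := hx
  rw [← map_nsmul, ← map_zero (io F)] at h ⊢
  have h1 : Additive.toMul u ∈ Units.torsion F :=
    isOfFinOrder_iff_pow_eq_one.2 ⟨m, Nat.pos_of_ne_zero hm, congrArg Additive.toMul (io_inj F h)⟩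
  rw [← Units.rootsOfUnity_eq_torsion, mem_rootsOfUnity] at h1
  exact congrArg (fun v => io F (Additive.ofMul v)) h1

theorem tc (i : F) (hi : i ^ 2 = -1) : IsTotallyComplex F where
  isComplex w := by
    rw [← InfinitePlace.not_isReal_iff_isComplex]
    intro hw
    have := congrArg (InfinitePlace.embedding_of_isReal hw) hi
    rw [map_pow, map_neg, map_one] at this
    nlinarith [sq_nonneg (InfinitePlace.embedding_of_isReal hw i)]

theorem rank_tc [IsTotallyComplex F] : 2 * (Units.rank F + 1) = Module.finrank ℚ F := by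
  rw [IsTotallyComplex.finrank, Units.rank, Nat.sub_add_cancel Fintype.card_pos,
    InfinitePlace.card_eq_nrRealPlaces_add_nrComplexPlaces,
    IsTotallyComplex.nrRealPlaces_eq_zero, zero_add]

end Un

section Act

variable {G V : Type} [Group G] [AddCommGroup V] [DistribMulAction G V]

/-- the action on a stable subgroup -/
@[reducible] def subAct (A : AddSubgroup V) (h : ∀ s : G, ∀ x ∈ A, s • x ∈ A) :
    DistribMulAction G A where
  smul s x := ⟨s • x.1, h s x.1 x.2⟩
  one_smul x := Subtype.ext (one_smul G x.1)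
  mul_smul s t x := Subtype.ext (mul_smul s t x.1)
  smul_zero s := Subtype.ext (smul_zero s)
  smul_add s x y := Subtype.ext (smul_add s x.1 y.1)

theorem Df_Nm (σ : G) (p : ℕ) (h : σ ^ p = 1) (x : V) : Df σ (Nm σ p x) = 0 := by
  rw [Df_apply, Nm_apply, Finset.smul_sum, ← Finset.sum_sub_distrib]
  simp only [← mul_smul, ← pow_succ']
  rw [Finset.sum_range_sub (fun i => σ ^ i • x), h, pow_zero, sub_self]

theorem Nm_Df (σ : G) (p : ℕ) (h : σ ^ p = 1) (x : V) : Nm σ p (Df σ x) = 0 := by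
  rw [Df_apply, Nm_apply]
  simp only [smul_sub, ← mul_smul, ← pow_succ]
  rw [Finset.sum_range_sub (fun i => σ ^ i • x), h, pow_zero, sub_self]

end Act

theorem rowUQ : RowHQ → RowUQ := by
  intro hHQ p hp k F G _ _ _ _ _ _ _ _ σ l E hG hσ ⟨i, hi⟩ hE hle hidx
  rw [units_eq] at hle hidx
  have : Fact p.Prime := ⟨hp⟩
  have : Finite G := Nat.finite_of_card_ne_zero (hG ▸ hp.ne_zero)
  have hσp : σ ^ p = 1 := hG ▸ pow_card_eq_one'
  have hgen : ∀ s : G, ∃ n : ℕ, σ ^ n = s := fun s =>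
    (mem_powers_iff_mem_zpowers.2 (mem_zpowers_of_prime_card hG hσ (g' := s)))
  have stab : ∀ B : AddSubgroup (Un F), (∀ x ∈ B, σ • x ∈ B) → ∀ s : G, ∀ x ∈ B, s • x ∈ B := by
    intro B hB s x hx
    obtain ⟨n, rfl⟩ := hgen s
    induction n with
    | zero => simpa using hx
    | succ n ih => rw [pow_succ', mul_smul]; exact hB _ ih
  have stf : ∀ B : AddSubgroup (Un F), (∀ x ∈ B, σ • x ∈ B) → ∀ x ∈ B, Df σ x ∈ B :=
    fun B hB x hx => sub_mem (hB x hx) hx
  have stg : ∀ B : AddSubgroup (Un F), (∀ x ∈ B, σ • x ∈ B) → ∀ x ∈ B, Nm σ p x ∈ B :=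
    fun B hB x hx => by
      rw [Nm_apply]
      exact sum_mem fun j _ => stab B hB _ x hx
  set n := Units.torsionOrder F with hn
  have hn0 : n ≠ 0 := Units.torsionOrder_ne_zero F
  set A : AddSubgroup (Un F) := E.map (nsmulAddMonoidHom n) with hA
  have hAE : A ≤ E := by
    rintro _ ⟨x, hx, rfl⟩
    exact nsmul_mem hx n
  have hAs : ∀ x ∈ A, σ • x ∈ A := by
    rintro _ ⟨x, hx, rfl⟩
    exact ⟨σ • x, hE x hx, (smul_comm σ n x).symm⟩
  have hEf : Module.Finite ℤ E :=
    fin_of (io F) E.subtype (io_inj F) E.subtype_injective (by rwa [E.range_subtype])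
  have hEfg : E.FG := (AddGroup.fg_iff_addSubgroup_fg E).1 (Module.Finite.iff_addGroup_fg.1 hEf)
  have hAi : A.relIndex E ≠ 0 :=
    (AddSubgroup.isFiniteRelIndex_map_nsmulAddMonoidHom_of_fg hEfg hn0).relIndex_ne_zero
  have hAU : A.relIndex (io F).range ≠ 0 := AddSubgroup.relIndex_ne_zero_trans hAi hidx
  have : Module.Finite ℤ A :=
    fin_of (io F) A.subtype (io_inj F) A.subtype_injective
      (by rw [A.range_subtype]; exact hAE.trans hle)
  have : IsAddTorsionFree A := by
    refine ⟨fun m hm a b hab => ?_⟩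
    obtain ⟨x, hx, hx'⟩ := (a - b).2
    have h0 : m • (a - b) = 0 := by
      rw [smul_sub]
      exact sub_eq_zero.2 hab
    have h1 : (m * n) • x = 0 := by
      rw [mul_smul]
      have := congrArg Subtype.val h0
      rw [AddSubgroup.coe_nsmul, ← hx'] at this
      exact this
    have h2 := tors F (hle hx) (mul_ne_zero hm hn0) h1
    exact sub_eq_zero.1 (Subtype.ext (hx'.symm.trans h2))
  let : DistribMulAction G A := subAct A (stab A hAs)
  have cs : ∀ (s : G) (x : A), ((s • x : A) : Un F) = s • (x : Un F) := fun _ _ => rfl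
  have : SMulCommClass G ℤ A := ⟨fun s m x => (DistribSMul.toAddMonoidHom A s).map_zsmul m x⟩
  have cf : ∀ x : A, ((Df σ x : A) : Un F) = Df σ (x : Un F) := fun _ => rfl
  have cg : ∀ x : A, ((Nm σ p x : A) : Un F) = Nm σ p (x : Un F) := fun x => by
    rw [Nm_apply, Nm_apply, AddSubgroup.val_finsetSum]
    rfl
  set Φ : Submodule ℤ A := (Df σ : A →+ A).ker.toIntSubmodule with hΦ
  have hΦm : ∀ x, x ∈ Φ ↔ σ • x = x := fun x => sub_eq_zero
  obtain ⟨-, q2, q3⟩ := hHQ p hp ℤ A G σ Φ
    (by rw [Nat.card_congr (Int.quotientSpanNatEquivZMod p).toEquiv, Nat.card_zmod])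
    (fun x => by rw [hσp, one_smul]) hΦm
  rw [hc_sub A _ _ _ _ cg cf] at q2 q3
  rw [hc_sub A _ _ _ _ cf cg] at q3
  have r1 : Module.finrank ℤ A = Units.rank F := by
    rw [← Units.finrank_eq]
    exact rank_of (io F) A.subtype (io_inj F) A.subtype_injective
      (by rw [A.range_subtype]; exact hAE.trans hle) (by rwa [A.range_subtype])
  have r2 : Module.finrank ℤ Φ = Units.rank k := by
    rw [← Units.finrank_eq]
    have hinc : Function.Injective (Un.inc k F) := fun x y h =>
      Un.ext ((algebraMap k F).injective (by rw [← Un.val_inc, ← Un.val_inc, h]))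
    have hr : (A.subtype.comp Φ.subtype.toAddMonoidHom).range = A ⊓ (Df σ).ker := by
      ext y
      constructor
      · rintro ⟨x, rfl⟩
        exact ⟨x.1.2, (cf x.1).symm.trans (congrArg Subtype.val x.2)⟩
      · rintro ⟨h1, h2⟩
        exact ⟨⟨⟨y, h1⟩, Subtype.ext h2⟩, rfl⟩
    have hk : ((Un.inc k F).comp (io k)).range = (io F).range ⊓ (Df σ).ker := by
      ext y
      constructor
      · rintro ⟨u, rfl⟩
        obtain ⟨h1, h2⟩ := (mem_io k).1 ⟨u, rfl⟩
        refine ⟨(mem_io F).2 ⟨h1.algebraMap, ?_⟩, sub_eq_zero.2 (Un.ext ?_)⟩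
        · show IsIntegral ℤ (algebraMap k F (io k u).val)⁻¹
          rw [← map_inv₀]
          exact h2.algebraMap
        · exact smul_algebraMap σ _
      · rintro ⟨h1, h2⟩
        have h3 : σ • y = y := sub_eq_zero.1 h2
        have h4 : ∀ s : G, s • y.val = y.val := by
          intro s
          obtain ⟨m, rfl⟩ := hgen s
          induction m with
          | zero => simp
          | succ m ih => rw [pow_succ, mul_smul, ← Un.val_smul σ, h3, ih]
        obtain ⟨z, hz⟩ := Algebra.IsInvariant.isInvariant (A := k) (G := G) y.val h4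
        have hz0 : z ≠ 0 := fun h => y.val_ne (by rw [← hz, h, map_zero])
        obtain ⟨a1, a2⟩ := (mem_io F).1 h1
        rw [← hz] at a1 a2
        rw [← map_inv₀] at a2
        obtain ⟨u, hu⟩ := (mem_io k (x := Un.mk z hz0)).2
          ⟨(isIntegral_algebraMap_iff (algebraMap k F).injective).1 a1,
            (isIntegral_algebraMap_iff (algebraMap k F).injective).1 a2⟩
        refine ⟨u, Un.ext ?_⟩
        show algebraMap k F (io k u).val = y.val
        rw [hu, ← hz]
        rfl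
    refine rank_of ((Un.inc k F).comp (io k)) (A.subtype.comp Φ.subtype.toAddMonoidHom)
      (hinc.comp (io_inj k)) (A.subtype_injective.comp Φ.subtype_injective) ?_ ?_
    · rw [hr, hk]
      exact inf_le_inf_right _ (hAE.trans hle)
    · rw [hr, hk, ← AddSubgroup.inf_relIndex_right, inf_assoc, inf_comm (Df σ).ker, inf_assoc,
        inf_idem, AddSubgroup.inf_relIndex_right]
      exact fun h => hAU (AddSubgroup.relIndex_eq_zero_of_le_right inf_le_left h)
  have := tc k i hi
  have : IsTotallyComplex F := isTotallyComplex_of_algebra k F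
  have d1 := rank_tc k
  have d2 := rank_tc F
  rw [← Module.finrank_mul_finrank ℚ k F, ← IsGaloisGroup.card_eq_finrank G k F, hG, ← d1] at d2
  have d3 : Units.rank F = p * Units.rank k + (p - 1) := by
    have := hp.one_le
    zify [this] at d2 ⊢
    linarith
  rw [r1, r2, d3, pow_add] at q3
  have q4 : (p * hs A (Df σ) (Nm σ p)) ^ (p - 1) = hs A (Nm σ p) (Df σ) ^ (p - 1) := by
    refine Nat.eq_of_mul_eq_mul_right (pow_pos hp.pos (p * Units.rank k)) ?_
    rw [← q3]
    ring
  have q5 := Nat.pow_left_injective (Nat.sub_ne_zero_of_lt hp.one_lt) q4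
  exact hs_up p A E hAE hAi _ _ (Df_Nm σ p hσp) (Nm_Df σ p hσp) (stf A hAs) (stg A hAs)
    (stf E hE) (stg E hE) q5 q2

end Pool.Agent.MP_db5b97_nt.H79
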