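import Pool.Agent.MP_db5b97_nt.H79.NA2
import Pool.Agent.MP_db5b97_nt.H31.SpecA

/-! Large Sylow subgroups of the kernel of a minimal subgroup are commutative. -/

namespace Pool.Agent.MP_db5b97_nt.H79

open H85 H30 H31 Module MulAction

section Rep

variable {E W : Type} [Group E] [AddCommGroup W] [Module Om W] [DistribMulAction E W]
  {P : Subgroup E} {p h : ℕ} {l l' : E → Om}

variable (W) in
/-- twisted characters that occur in the space -/
structure Good (P : Subgroup E) (p h : ℕ) (l : E → Om) : Prop where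
  tw : Tw P p h l
  nt : ∃ x ∈ Dd P p, ∃ g ∈ P, l (kp x g) ≠ 1
  eig : ∃ w : W, w ≠ 0 ∧ ∀ x, Rad P p l x → x • w = l x • w

/-- the joint eigenspace of the radical -/
def Vs (hL : Lin W P) (p : ℕ) (l : E → Om) : Submodule Om W where
  carrier := {w | ∀ x, Rad P p l x → x • w = l x • w}
  add_mem' := fun hx hy x h => by rw [smul_add, smul_add, hx x h, hy x h]
  zero_mem' := fun x _ => by rw [smul_zero, smul_zero]
  smul_mem' := fun a w hw x h => by rw [hL x h.1.1, hw x h, smul_comm]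

theorem Vs_inv (hL : Lin W P) (t : Tw P p h l) : Inv P (Vs hL p l) := fun g hg w hw x hx => by
  have hz := (hx.1.2 g hg).1
  rw [← mul_smul, kp_eq, ← mul_assoc, hz.2 g hg, mul_assoc, mul_smul, mul_smul, hw x hx,
    hL _ hz.1, hw _ (t.rad hz), hx.2 g hg, one_smul, hL g hg]

variable [FiniteDimensional Om W]

theorem Good.le_rank (hL : Lin W P) (hp : p.Prime) (t : Good W P p h l) :
    p ≤ finrank Om (Vs hL p l) := by
  obtain ⟨x, hx, g, hg, h1⟩ := t.nt
  obtain ⟨w, hw0, hw⟩ := t.eig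
  have hi := Vs_inv hL t.tw
  have h2 := dvd_dim hL hi hx.1 hg (ζ := l (kp x g)) fun w hw => by
    rw [← mul_smul, kp_eq, mul_smul, mul_smul]
    exact hi g hg _ (hi x hx.1 w hw) _ (t.tw.rad (hx.2 g hg).1)
  have h3 := (order_dvd hp (k := 1) h1 (by rw [pow_one]; exact t.tw.root hx hg)).1
  refine Nat.le_of_dvd (Nat.pos_of_ne_zero fun h0 => hw0 ?_) (h3.trans h2)
  exact (Submodule.eq_bot_iff _).1 (Submodule.finrank_eq_zero.1 h0) w hw

theorem card_lt [Finite P] (hL : Lin W P) (hp : p.Prime) (hd : finrank Om W < p ^ 2) {ι : Type}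
    [Finite ι] (f : ι → E → Om) (hf : ∀ i, Good W P p h (f i))
    (hs : ∀ i j, (∃ g ∈ P, ∀ x, f i (g⁻¹ * x * g) = f j x) → i = j) : Nat.card ι < p := by
  have := Fintype.ofFinite ι
  have h1 := sum_rank_le (fun i => Vs hL p (f i)) fun i j hij => by
    have h2 : ¬ ∀ x, Rad P p (f i) x → Rad P p (f j) x → f i x = f j x := fun h2 =>
      hij (hs i j ((hf i).tw.sep (hf j).tw h2))
    push Not at h2
    obtain ⟨x, hi, hj, hx⟩ := h2
    refine ⟨lin hL hi.1.1 - f i x • LinearMap.id, fun k w hw => ?_, fun w hw => ?_,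
      fun w hw h0 => ?_⟩
    · exact sub_mem (Vs_inv hL (hf k).tw x hi.1.1 w hw) (Submodule.smul_mem _ _ hw)
    · exact sub_eq_zero.2 (hw x hi)
    · have h3 : x • w - f i x • w = 0 := h0
      rw [hw x hj, ← sub_smul, smul_eq_zero, sub_eq_zero] at h3
      exact h3.resolve_left (Ne.symm hx)
  have h2 : ∑ _i : ι, p ≤ ∑ i, finrank Om (Vs hL p (f i)) :=
    Finset.sum_le_sum fun i _ => (hf i).le_rank hL hp
  rw [Finset.sum_const, Finset.card_univ, smul_eq_mul] at h2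
  rw [Nat.card_eq_fintype_card]
  exact lt_of_mul_lt_mul_right (by rw [← sq]; omega) p.zero_le

theorem exists_good [Finite P] (hL : Lin W P) (hh : 2 * h = p + 1)
    (hf : ∀ g ∈ P, (∀ w : W, g • w = w) → g = 1) {y g : E} (hy : y ∈ Dd P p) (hg : g ∈ P)
    (hne : kp y g ≠ 1) : ∃ l, Good W P p h l := by
  classical
  have hz := (hy.2 g hg).1
  obtain ⟨w, hw⟩ := not_forall.1 fun h => hne (hf _ hz.1 h)
  obtain ⟨W1, -, e, k1, k2, k3⟩ := decomp hL _ ⊤ rfl (fun _ _ _ _ => trivial) _ trivial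
    (sub_ne_zero.2 hw)
  rw [map_sub, k2.eqv _ hz.1, sub_ne_zero] at k3
  have hw1 := k2.mem w
  have hw0 : e w ≠ 0 := fun h => k3 (by rw [h, smul_zero])
  let R : Subgroup (Dd P p) :=
    { carrier := {x | ∀ g ∈ P, ∀ w ∈ W1, (x : E) • g • w = g • (x : E) • w}
      one_mem' := fun g _ w _ => by simp
      mul_mem' := fun {x y} hx hy g hg w hw => by
        rw [Subgroup.coe_mul, mul_smul, mul_smul, hy g hg w hw, hx g hg _ (k1.1 _ y.2.1 w hw)]
      inv_mem' := fun {x} hx g hg w hw => by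
        rw [Subgroup.coe_inv, inv_smul_eq_iff, hx g hg _ (k1.1 _ (P.inv_mem x.2.1) w hw),
          smul_inv_smul] }
  have hZ : ∀ x : Dd P p, Zc P (x : E) → x ∈ R := fun x hx g hg w _ => by
    rw [← mul_smul, hx.2 g hg, mul_smul]
  choose! μ hμ using fun (x : Dd P p) (hx : x ∈ R) => schur hL k1 x.2.1 hx
  have hk : ∀ x y : Dd P p, ((kp x y : Dd P p) : E) = kp (x : E) y := fun _ _ => rfl
  obtain ⟨l, l1, l2, l3⟩ := baer (Γ := Dd P p) (h := h)
    (fun x y z => Subtype.ext ((x.2.2 _ y.2.1).1.2 _ z.2.1))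
    (fun x y => Subtype.ext (by
      rw [Subgroup.coe_pow, hk, hh, pow_succ, (x.2.2 _ y.2.1).2, one_mul]))
    R (fun x y => hZ _ (x.2.2 _ y.2.1).1) μ
    (fun x hx h0 => hw0 (by
      have := hμ x hx _ hw1
      rwa [h0, zero_smul, smul_eq_zero_iff_eq] at this))
    (fun x hx y hy => smul_left_injective Om hw0 (by
      show μ (x * y) • e w = (μ x * μ y) • e w
      rw [← hμ _ (R.mul_mem hx hy) _ hw1, Subgroup.coe_mul, mul_smul, hμ y hy _ hw1, hL _ x.2.1,
        hμ x hx _ hw1, smul_smul, mul_comm]))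
  have l4 : ∀ z (hz : Zc P z), ∀ w ∈ W1, z • w = l ⟨z, hz.mem⟩ • w := fun z hz w hw => by
    rw [l2 _ (hZ _ hz)]
    exact hμ ⟨z, hz.mem⟩ (hZ _ hz) w hw
  refine ⟨fun x => if hx : x ∈ Dd P p then l ⟨x, hx⟩ else 0, ⟨fun x hx => dif_neg hx, ?_,
    fun x hx => ?_, fun x hx y hy => ?_⟩, ⟨y, hy, g, hg, ?_⟩, e w, hw0, fun x hx => ?_⟩
  · rw [dif_pos (one_mem _)]
    exact smul_left_injective Om hw0 (by
      show l _ • e w = (1 : Om) • e w
      rw [← l4 1 Zc.one _ hw1, one_smul, one_smul])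
  · rw [dif_pos hx]
    exact l1 _
  · rw [dif_pos hx, dif_pos hy, dif_pos (mul_mem hx hy), dif_pos (hx.2 y hy.1).1.mem]
    exact l3 ⟨x, hx⟩ ⟨y, hy⟩
  · rw [dif_pos hz.mem]
    intro h1
    exact k3 (by rw [l4 _ hz _ hw1, h1, one_smul])
  · have hR : (⟨x, hx.1⟩ : Dd P p) ∈ R := fun g hg w hw => by
      have h1 := hx.2 g hg
      have h2 := (hx.1.2 g hg).1
      simp only [dif_pos h2.mem] at h1
      show x • g • w = g • x • w
      rw [← mul_smul, kp_eq, mul_smul, mul_smul, l4 _ h2 _ (k1.1 g hg _ (k1.1 x hx.1.1 w hw)), h1,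
        one_smul]
    simp only [dif_pos hx.1]
    rw [l2 _ hR]
    exact hμ _ hR _ hw1

omit [FiniteDimensional Om W] in
theorem Good.act {π : E →* Ga} (hs : SL W π) (t : Good W P p h l) {u : E} (hu : Nz P u) :
    Good W P p h fun x => π u (l (u⁻¹ * x * u)) := by
  refine ⟨t.tw.act hu _, ?_, ?_⟩
  · obtain ⟨x, hx, g, hg, h1⟩ := t.nt
    refine ⟨_, hu.inv.dd hx, _, (hu.inv g).1 hg, fun h2 => h1 ?_⟩
    rw [kp_conj, map_eq_one_iff _ (π u).injective] at h2
    simpa [mul_assoc] using h2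
  · obtain ⟨w, hw0, hw⟩ := t.eig
    refine ⟨u • w, fun h0 => hw0 ((smul_eq_zero_iff_eq u).1 h0), fun x hx => ?_⟩
    have h1 := hw (u⁻¹ * x * u) ⟨hu.dd hx.1, fun g hg => by
      have h2 := hx.2 _ ((hu.inv g).1 hg)
      rw [map_eq_one_iff _ (π u).injective, ← kp_conj] at h2
      simpa [mul_assoc] using h2⟩
    rw [← hs, ← h1, mul_smul, mul_smul, smul_inv_smul]

end Rep

theorem rowNA : RowSUP → RowNA := by
  intro hS E W _ _ _ _ _ π E0 U p c hU hmin hN hp h2 hd hna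
  classical
  have := c.finite U
  set G := U ⊓ π.ker with hG
  let P : Subgroup E :=
    { carrier := {g | g ∈ G ∧ IsP p g}
      one_mem' := ⟨G.one_mem, 0, by simp⟩
      mul_mem' := fun {a b} ha hb => ⟨G.mul_mem ha.1 hb.1, hN.mul p hp a ha.1 b hb.1 ha.2 hb.2⟩
      inv_mem' := fun ha => ⟨G.inv_mem ha.1, ha.2.inv⟩ }
  have hPG : P ≤ G := fun g hg => hg.1
  have : Finite P := Finite.of_injective _ (Subgroup.inclusion_injective hPG)
  have hL : Lin W P := (c.sl.lin U).mono hPG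
  have hπ : ∀ g ∈ P, π g = 1 := fun g hg => hg.1.2
  have hc : ∀ u ∈ U, ∀ g ∈ P, u⁻¹ * g * u ∈ P := fun u hu g hg =>
    ⟨⟨U.mul_mem (U.mul_mem (U.inv_mem hu) hg.1.1) hu, π.normal_ker.conj_mem' g hg.1.2 u⟩, by
      simpa using hg.2.conj u⁻¹⟩
  have hz : ∀ u ∈ U, Nz P u := fun u hu g =>
    ⟨hc u hu g, fun h => by simpa [mul_assoc] using hc _ (U.inv_mem hu) _ h⟩
  obtain ⟨h, hh⟩ : ∃ h, 2 * h = p + 1 := by
    obtain ⟨k, hk⟩ := hp.odd_of_ne_two h2
    exact ⟨k + 1, by omega⟩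
  obtain ⟨l0, hl0⟩ : ∃ l, Good W P p h l := by
    obtain ⟨g, hg, u, hu, pg, pu, w, -, hw⟩ := hna
    obtain ⟨y, hy, g, hg, h1⟩ := exists_dd (P := P) hN hp (fun _ => Iff.rfl) (g := g) (u := u)
      ⟨hg, pg⟩ ⟨hu, pu⟩ fun h => hw (by rw [← mul_smul, h, mul_smul])
    exact exists_good hL hh (fun g hg => c.faith g (hπ g hg)) hy hg h1
  let Y : Type := {l : E → Om // Good W P p h l}
  let _ : MulAction U Y :=
    { smul := fun u l => ⟨fun x => π u (l.1 ((u : E)⁻¹ * x * u)), l.2.act c.sl (hz u u.2)⟩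
      one_smul := fun l => Subtype.ext (funext fun x => by
        show π 1 (l.1 (1⁻¹ * x * 1)) = l.1 x
        simp)
      mul_smul := fun u v l => Subtype.ext (funext fun x => by
        show π (u * v) (l.1 (((u : E) * v)⁻¹ * x * (u * v))) =
          π u (π v (l.1 ((v : E)⁻¹ * ((u : E)⁻¹ * x * u) * v)))
        rw [map_mul, AlgEquiv.mul_apply]
        simp [mul_assoc]) }
  have ev : ∀ (u : U) (l : Y) (x : E), (u • l).1 x = π u (l.1 ((u : E)⁻¹ * x * u)) :=
    fun _ _ _ => rfl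
  have ev' : ∀ u : U, (u : E) ∈ P → ∀ (l : Y) (x : E), (u • l).1 x = l.1 (kp x u) * l.1 x :=
    fun u hu l x => by rw [ev, hπ u hu, l.2.tw.conj hu]; rfl
  let S : Set Om := {a | a = 0 ∨ a ^ Nat.card P = 1}
  have hSf : Finite S := by
    refine Set.Finite.subset ((Polynomial.nthRootsFinset (Nat.card P) (1 : Om)).finite_toSet.insert
      0) fun a ha => ha.imp id fun ha => ?_
    exact (Polynomial.mem_nthRootsFinset Nat.card_pos 1).2 ha
  have hval : ∀ (l : Y) (x : E), l.1 x ∈ S := fun l x => by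
    by_cases hx : x ∈ Dd P p
    · refine Or.inr ?_
      rw [← l.2.tw.pow hx, show x ^ Nat.card P = 1 from
        congrArg Subtype.val (pow_card_eq_one' (x := (⟨x, hx.1⟩ : P))), l.2.tw.one]
    · exact Or.inl (l.2.tw.off x hx)
  have hext : ∀ l l' : Y, (∀ x ∈ Dd P p, l.1 x = l'.1 x) → l = l' := fun l l' h =>
    Subtype.ext (funext fun x => by
      by_cases hx : x ∈ Dd P p
      · exact h x hx
      · rw [l.2.tw.off x hx, l'.2.tw.off x hx])
  have : Finite Y := Finite.of_injective (fun (l : Y) (x : P) => (⟨l.1 x, hval l x⟩ : S))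
    fun l l' h => hext l l' fun x hx => congrArg Subtype.val (congrFun h ⟨x, hx.1⟩)
  obtain ⟨U', k1, k2, k3⟩ := hS U Y (P.subgroupOf U) p hp
    ⟨fun g hg u => Subgroup.mem_subgroupOf.2 (by simpa using hc _ (U.inv_mem u.2) _ hg)⟩
    (card_lt hL hp hd (fun i => (Quotient.out i).1) (fun i => (Quotient.out i).2) (by
      rintro i j ⟨g, hg, h1⟩
      rw [← Quotient.out_eq i, ← Quotient.out_eq j]
      refine Quotient.sound' (orbitRel_apply.2 (mem_orbit_symm.1 ⟨⟨⟨g, hg.1.1⟩, hg⟩, ?_⟩))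
      refine Subtype.ext (funext fun x => ?_)
      rw [← h1 x]
      show π g _ = _
      rw [hπ g hg]
      rfl))
    (fun g hg u hu l => hext _ _ fun x hx => by
      rw [Subgroup.mem_subgroupOf] at hg hu
      rw [← mul_smul, ← mul_smul, ev' _ (P.mul_mem hg hu), ev' _ (P.mul_mem hu hg),
        Subgroup.coe_mul, Subgroup.coe_mul, l.2.tw.right hx hg hu, l.2.tw.right hx hu hg,
        mul_comm (l.1 (kp x g))])
    (fun g hg l => hext _ _ fun x hx => by
      rw [Subgroup.mem_subgroupOf] at hg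
      rw [ev' _ (P.pow_mem hg p), Subgroup.coe_pow, l.2.tw.right_pow hx hg, l.2.tw.root hx hg,
        one_mul])
    (by
      obtain ⟨x, hx, g, hg, h1⟩ := hl0.nt
      refine ⟨⟨g, hg.1.1⟩, hg, ⟨l0, hl0⟩, fun h3 => h1 ?_⟩
      have h4 := ev' ⟨g, hg.1.1⟩ hg ⟨l0, hl0⟩ x
      rw [h3] at h4
      exact mul_right_cancel₀ (hl0.tw.ne x hx) (h4.symm.trans (one_mul _).symm))
  have k4 := hmin (U'.map U.subtype) (Subgroup.map_subtype_le _) (by
    have : Algebra.IsAlgebraic ℚ Om := AlgebraicClosure.isAlgebraic ℚ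
    have o1 : OP π E0 fun e => ∀ a : S, π e a = a := OP.all fun a =>
      ⟨stabilizer Ga (a : Om), stabilizer_isOpen_of_isIntegral _, fun e _ he => he⟩
    refine ((OP.and hU c.op_cent).and o1).mono fun e he => ⟨⟨e, he.1.1⟩, k1 _ fun l => ?_, rfl⟩
    refine hext _ _ fun x hx => ?_
    have h3 : e * x * e⁻¹ = x := he.1.2 ⟨x, hπ x hx.1⟩
    have h4 : e⁻¹ * x * e = x := by
      conv_lhs => rw [← h3]
      group
    rw [ev]
    show π e (l.1 (e⁻¹ * x * e)) = _
    rw [h4]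
    exact he.2 ⟨_, hval l x⟩) (by
    refine le_antisymm (Subgroup.map_mono (Subgroup.map_subtype_le _)) ?_
    rintro _ ⟨u, hu, rfl⟩
    obtain ⟨g, hg, h3⟩ := k2 ⟨u, hu⟩
    refine ⟨g * u, ⟨_, h3, rfl⟩, ?_⟩
    rw [map_mul, hπ (g : E) hg, one_mul])
  refine k3 fun g hg => ?_
  obtain ⟨g', hg', e⟩ := k4 (hPG hg)
  rwa [← show g' = g from Subtype.ext e]

end Pool.Agent.MP_db5b97_nt.H79
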