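import Pool.Agent.MP_db5b97_nt.H30.B
import Pool.Agent.MP_db5b97_nt.H35.C

/-! Groups of class two, independence of subspaces. -/

namespace Pool.Agent.MP_db5b97_nt.H79

open H85 Module

section Baer

variable {Γ : Type} [Group Γ]

/-- commutators -/
def kp (x y : Γ) : Γ := x * y * x⁻¹ * y⁻¹

theorem kp_eq (x y : Γ) : x * y = kp x y * (y * x) := by
  unfold kp
  group

theorem kp_inv (x y : Γ) : (kp x y)⁻¹ = kp y x := by
  unfold kp
  group

theorem kp_of_comm {x y : Γ} (h : x * y = y * x) : kp x y = 1 := by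
  unfold kp
  rw [h]
  group

theorem comm_of_kp {x y : Γ} (h : kp x y = 1) : x * y = y * x := by
  rw [kp_eq, h, one_mul]

theorem kp_conj (u x y : Γ) : kp (u⁻¹ * x * u) (u⁻¹ * y * u) = u⁻¹ * kp x y * u := by
  unfold kp
  group

theorem kp_mul_left {x y g : Γ} (h : kp y g * x = x * kp y g) :
    kp (x * y) g = kp y g * kp x g := by
  calc kp (x * y) g = (x * kp y g) * (g * x⁻¹ * g⁻¹) := by unfold kp; group
    _ = kp y g * kp x g := by rw [← h]; unfold kp; group

theorem kp_mul_right {x g u : Γ} (h : kp x u * g = g * kp x u) :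
    kp x (g * u) = kp x g * kp x u := by
  calc kp x (g * u) = kp x g * (g * kp x u) * g⁻¹ := by unfold kp; group
    _ = kp x g * kp x u := by rw [← h]; group

theorem baer {h : ℕ} (hc : ∀ x y z : Γ, kp x y * z = z * kp x y)
    (hp : ∀ x y : Γ, kp x y ^ (2 * h) = kp x y) (R : Subgroup Γ) (hR : ∀ x y, kp x y ∈ R)
    (μ : Γ → Om) (h0 : ∀ x ∈ R, μ x ≠ 0) (hμ : ∀ x ∈ R, ∀ y ∈ R, μ (x * y) = μ x * μ y) :
    ∃ l : Γ → Om, (∀ x, l x ≠ 0) ∧ (∀ x ∈ R, l x = μ x) ∧
      ∀ x y, l (x * y) = l x * l y * l (kp x y) ^ h := by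
  classical
  have hc' : ∀ x y z : Γ, Commute (kp x y ^ h) z := fun x y z =>
    Commute.pow_left (hc x y z) h
  have sw : ∀ x y a b : Γ, a * kp x y ^ h * b = a * b * kp x y ^ h := fun x y a b => by
    rw [mul_assoc, (hc' x y b).eq, mul_assoc]
  have c1 : ∀ x y g : Γ, kp (x * y) g ^ h = kp x g ^ h * kp y g ^ h := fun x y g => by
    rw [kp_mul_left (hc y g x), Commute.mul_pow (hc y g _), (hc' y g _).eq]
  have c2 : ∀ x y g : Γ, kp g (x * y) ^ h = kp g x ^ h * kp g y ^ h := fun x y g => by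
    rw [kp_mul_right (hc g y x), Commute.mul_pow (hc g x _)]
  have c3 : ∀ x y g : Γ, kp (kp x y ^ h) g = 1 := fun x y g => kp_of_comm (hc' x y g).eq
  have c4 : ∀ x y g : Γ, kp g (kp x y ^ h) = 1 := fun x y g => kp_of_comm (hc' x y g).eq.symm
  have c5 : ∀ x y : Γ, kp x y ^ h * kp y x ^ h = 1 := fun x y => by
    rw [← kp_inv x y, inv_pow, mul_inv_cancel]
  let _ : Add Γ := ⟨fun x y => x * y * kp y x ^ h⟩
  let _ : Zero Γ := ⟨1⟩
  let _ : Neg Γ := ⟨fun x => x⁻¹⟩
  have ad : ∀ x y : Γ, x + y = x * y * kp y x ^ h := fun _ _ => rfl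
  let A : AddGroup Γ := AddGroup.ofLeftAxioms
    (fun x y z => by
      simp only [ad, c1, c2, c3, c4, one_pow, mul_one]
      rw [sw y x (x * y) z, ← mul_assoc x, ← mul_assoc x, mul_assoc (x * y * z),
        mul_assoc (x * y * z), (hc' z y _).eq, mul_assoc (kp y x ^ h)])
    (fun x => by
      show (1 : Γ) * x * kp x 1 ^ h = x
      rw [kp_of_comm (by simp), one_pow, one_mul, mul_one])
    (fun x => by
      show x⁻¹ * x * kp x x⁻¹ ^ h = 1
      rw [kp_of_comm (by simp), one_pow, mul_one, inv_mul_cancel])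
  let _ : AddCommGroup Γ :=
    { A with
      add_comm := fun x y => by
        show x * y * kp y x ^ h = y * x * kp x y ^ h
        rw [kp_eq x y, hc x y, mul_assoc (y * x)]
        congr 1
        have := hp x y
        rw [two_mul, pow_add] at this
        calc kp x y * kp y x ^ h = kp x y ^ h * (kp x y ^ h * kp y x ^ h) := by
              rw [← mul_assoc, this]
          _ = _ := by rw [c5, mul_one] }
  let M : AddSubgroup Γ :=
    { carrier := R
      add_mem' := fun {x y} hx hy => R.mul_mem (R.mul_mem hx hy) (R.pow_mem (hR _ _) h)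
      zero_mem' := R.one_mem
      neg_mem' := fun hx => R.inv_mem hx }
  have m1 : μ 1 = 1 := mul_left_cancel₀ (h0 1 R.one_mem) (by
    rw [← hμ 1 R.one_mem 1 R.one_mem, mul_one, mul_one])
  have mp : ∀ x ∈ R, ∀ n : ℕ, μ (x ^ n) = μ x ^ n := fun x hx n => by
    induction n with
    | zero => simpa using m1
    | succ n ih => rw [pow_succ, hμ _ (R.pow_mem hx n) _ hx, ih, pow_succ]
  have mk : ∀ x ∈ R, ∀ y ∈ R, μ (kp x y) = 1 := fun x hx y hy => by
    have e := hμ x hx y hy
    rw [kp_eq, hμ _ (hR _ _) _ (R.mul_mem hy hx), hμ y hy x hx, mul_comm (μ y)] at e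
    exact mul_right_cancel₀ (mul_ne_zero (h0 x hx) (h0 y hy)) (by rw [e, one_mul])
  obtain ⟨B, hB⟩ := H35.exists_ext (M := M)
    (β := fun x => if hx : x ∈ R then Un.mk (μ x) (h0 x hx) else 0) (fun x hx y hy => by
      have hx' : x ∈ R := hx
      have hy' : y ∈ R := hy
      have hxy : x + y ∈ R := M.add_mem hx hy
      simp only [dif_pos hx', dif_pos hy', dif_pos hxy]
      refine Un.ext ?_
      rw [Un.val_add, Un.val_mk, Un.val_mk, Un.val_mk, ad,
        hμ _ (R.mul_mem hx hy) _ (R.pow_mem (hR _ _) h), mp _ (hR _ _), mk y hy x hx, one_pow,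
        mul_one, hμ x hx y hy])
  have hB' : ∀ x ∈ R, (B x).val = μ x := fun x hx => by
    rw [hB x hx, dif_pos hx, Un.val_mk]
  refine ⟨fun x => (B x).val, fun x => Un.val_ne _, hB', fun x y => ?_⟩
  have e : x * y = x + y + kp x y ^ h := by
    rw [ad, ad, c3, one_pow, mul_one, mul_assoc (x * y), c5, mul_one]
  show (B (x * y)).val = (B x).val * (B y).val * (B (kp x y)).val ^ h
  rw [e, map_add, map_add, Un.val_add, Un.val_add, hB' _ (R.pow_mem (hR _ _) h), mp _ (hR _ _),
    hB' _ (hR _ _)]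

end Baer

section Ind

variable {W : Type} [AddCommGroup W] [Module Om W] [FiniteDimensional Om W]

theorem sum_rank_le {ι : Type} [Fintype ι] (V : ι → Submodule Om W)
    (h : ∀ i j, i ≠ j → ∃ T : W →ₗ[Om] W, (∀ k, ∀ w ∈ V k, T w ∈ V k) ∧ (∀ w ∈ V i, T w = 0) ∧
      ∀ w ∈ V j, T w = 0 → w = 0) : ∑ i, finrank Om (V i) ≤ finrank Om W := by
  classical
  have key : ∀ (j : ι) (s : Finset ι), j ∉ s → ∀ v : ι → W, (∀ i, v i ∈ V i) →
      v j + ∑ i ∈ s, v i = 0 → v j = 0 := by
    intro j s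
    induction s using Finset.induction_on with
    | empty => intro _ v _ h0; simpa using h0
    | insert i s hi ih =>
      intro hj v hv h0
      rw [Finset.mem_insert, not_or] at hj
      obtain ⟨T, h1, h2, h3⟩ := h i j (Ne.symm hj.1)
      refine h3 _ (hv j) (ih hj.2 (fun k => T (v k)) (fun k => h1 k _ (hv k)) ?_)
      have := congrArg T h0
      rwa [Finset.sum_insert hi, map_add, map_add, h2 _ (hv i), zero_add, map_sum,
        map_zero] at this
  let Φ : ((i : ι) → V i) →ₗ[Om] W := ∑ i : ι, (V i).subtype ∘ₗ LinearMap.proj i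
  have ev : ∀ v, Φ v = ∑ i : ι, (v i : W) := by
    intro v
    simp [Φ, LinearMap.sum_apply]
  have := LinearMap.finrank_le_finrank_of_injective (f := Φ) (by
    rw [← LinearMap.ker_eq_bot, Submodule.eq_bot_iff]
    intro v hv
    have h2 : Φ v = 0 := hv
    rw [ev] at h2
    funext j
    refine Subtype.ext (key j (Finset.univ.erase j) (Finset.notMem_erase j _)
      (fun i => (v i : W)) (fun i => (v i).2) ?_)
    rw [Finset.add_sum_erase _ (fun i => (v i : W)) (Finset.mem_univ j), h2])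
  simpa [Module.finrank_pi_fintype] using this

end Ind

/-- a character that is trivial on the kernel of a pairing comes from the pairing -/
theorem pairing {A B : Type} [Group A] [Group B] [Finite A] [Finite B] (β : A → B → Om)
    (ρ : A → Om) (h1 : ∀ x y g, β (x * y) g = β x g * β y g) (h1' : ∀ g, β 1 g = 1)
    (h2 : ∀ x g u, β x (g * u) = β x g * β x u) (h2' : ∀ x, β x 1 = 1)
    (h3 : ∀ x y, ρ (x * y) = ρ x * ρ y) (h4 : ∀ x, (∀ g, β x g = 1) → ρ x = 1) :
    ∃ g, ∀ x, β x g * ρ x = 1 := by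
  classical
  have := Fintype.ofFinite A
  have := Fintype.ofFinite B
  by_contra hn
  push Not at hn
  have k1 : ∀ g, ∑ x, β x g * ρ x = 0 := fun g => by
    let f : A →* Om :=
      { toFun := fun x => β x g * ρ x
        map_one' := by rw [h1', h4 1 h1', mul_one]
        map_mul' := fun x y => by rw [h1, h3]; ring }
    obtain ⟨x, hx⟩ := hn g
    exact sum_hom_units_eq_zero f fun hf => hx (DFunLike.congr_fun hf x)
  have k2 : ∀ x, ∑ g, β x g * ρ x = if ∀ g, β x g = 1 then (Fintype.card B : Om) else 0 := by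
    intro x
    split_ifs with hx
    · simp [hx, h4 x hx]
    · let f : B →* Om := { toFun := β x, map_one' := h2' x, map_mul' := h2 x }
      rw [← Finset.sum_mul]
      have : ∑ g, β x g = 0 :=
        sum_hom_units_eq_zero f fun hf => hx fun g => DFunLike.congr_fun hf g
      rw [this, zero_mul]
  have k3 : ∑ x, ∑ g, β x g * ρ x = 0 := by
    rw [Finset.sum_comm]
    exact Finset.sum_eq_zero fun g _ => k1 g
  rw [Finset.sum_congr rfl fun x _ => k2 x, ← Finset.sum_filter, Finset.sum_const,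
    nsmul_eq_mul, mul_eq_zero, Nat.cast_eq_zero, Nat.cast_eq_zero, Finset.card_eq_zero] at k3
  rcases k3 with k3 | k3
  · exact Finset.ne_empty_of_mem (Finset.mem_filter.2 ⟨Finset.mem_univ 1, h1'⟩) k3
  · exact Fintype.card_ne_zero k3

end Pool.Agent.MP_db5b97_nt.H79
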