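import Pool.Agent.MP_db5b97_nt.H79.NA1

/-! Twisted characters of the second centre. -/

namespace Pool.Agent.MP_db5b97_nt.H79

open H85 H30 Module

section Grp

variable {E : Type} [Group E] {P : Subgroup E} {p h : ℕ}

/-- the centre of `P` -/
def Zc (P : Subgroup E) (z : E) : Prop := z ∈ P ∧ ∀ g ∈ P, z * g = g * z

theorem Zc.one : Zc P 1 := ⟨P.one_mem, by simp⟩

theorem Zc.mul {x y : E} (hx : Zc P x) (hy : Zc P y) : Zc P (x * y) :=
  ⟨P.mul_mem hx.1 hy.1, fun g hg => by rw [mul_assoc, hy.2 g hg, ← mul_assoc, hx.2 g hg, mul_assoc]⟩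

theorem Zc.inv {x : E} (hx : Zc P x) : Zc P x⁻¹ :=
  ⟨P.inv_mem hx.1, fun g hg => (Commute.inv_left (hx.2 g hg)).eq⟩

theorem kp_inv_left {x g : E} (hx : x ∈ P) (h : Zc P (kp x g)) : kp x⁻¹ g = (kp x g)⁻¹ := by
  have := kp_mul_left (x := x⁻¹) (y := x) (g := g) (h.2 _ (P.inv_mem hx))
  rw [inv_mul_cancel, kp_of_comm (by simp)] at this
  exact (eq_inv_of_mul_eq_one_right this.symm)

theorem kp_pow_left {x g : E} (hx : x ∈ P) (h : Zc P (kp x g)) (n : ℕ) :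
    kp (x ^ n) g = kp x g ^ n := by
  induction n with
  | zero => rw [pow_zero, pow_zero, kp_of_comm (by simp)]
  | succ n ih => rw [pow_succ, kp_mul_left (h.2 _ (P.pow_mem hx n)), ih, pow_succ']

theorem Zc.pow {x : E} (hx : Zc P x) (n : ℕ) : Zc P (x ^ n) :=
  ⟨P.pow_mem hx.1 n, fun g hg => (Commute.pow_left (hx.2 g hg) n).eq⟩

/-- elements whose commutators are central of exponent `p` -/
def Dd (P : Subgroup E) (p : ℕ) : Subgroup E where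
  carrier := {x | x ∈ P ∧ ∀ g ∈ P, Zc P (kp x g) ∧ kp x g ^ p = 1}
  one_mem' := ⟨P.one_mem, fun g _ => by
    rw [kp_of_comm (by simp)]
    exact ⟨Zc.one, one_pow p⟩⟩
  mul_mem' := fun {x y} hx hy => ⟨P.mul_mem hx.1 hy.1, fun g hg => by
    rw [kp_mul_left ((hy.2 g hg).1.2 x hx.1)]
    refine ⟨(hy.2 g hg).1.mul (hx.2 g hg).1, ?_⟩
    rw [Commute.mul_pow ((hy.2 g hg).1.2 _ (hx.2 g hg).1.1), (hy.2 g hg).2, (hx.2 g hg).2,
      mul_one]⟩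
  inv_mem' := fun {x} hx => ⟨P.inv_mem hx.1, fun g hg => by
    rw [kp_inv_left hx.1 (hx.2 g hg).1]
    exact ⟨(hx.2 g hg).1.inv, by rw [inv_pow, (hx.2 g hg).2, inv_one]⟩⟩

theorem Zc.kp {z g : E} (hz : Zc P z) (hg : g ∈ P) : kp z g = 1 := kp_of_comm (hz.2 g hg)

theorem Zc.mem {z : E} (hz : Zc P z) : z ∈ Dd P p :=
  ⟨hz.1, fun g hg => by
    rw [hz.kp hg]
    exact ⟨Zc.one, one_pow p⟩⟩

/-- `u` normalises `P` -/
def Nz (P : Subgroup E) (u : E) : Prop := ∀ g, g ∈ P ↔ u⁻¹ * g * u ∈ P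

theorem Nz.inv {u : E} (hu : Nz P u) : Nz P u⁻¹ := fun g => by
  rw [hu (u⁻¹⁻¹ * g * u⁻¹)]
  simp [mul_assoc]

theorem Nz.of_mem {u : E} (hu : u ∈ P) : Nz P u := fun g => by
  rw [P.mul_mem_cancel_right hu, P.mul_mem_cancel_left (P.inv_mem hu)]

theorem Nz.zc {u z : E} (hu : Nz P u) (hz : Zc P z) : Zc P (u⁻¹ * z * u) :=
  ⟨(hu z).1 hz.1, fun g hg => by
    have := hz.2 _ ((hu.inv g).1 hg)
    calc u⁻¹ * z * u * g = u⁻¹ * (z * (u⁻¹⁻¹ * g * u⁻¹)) * u := by group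
      _ = g * (u⁻¹ * z * u) := by rw [this]; group⟩

theorem Nz.dd {u x : E} (hu : Nz P u) (hx : x ∈ Dd P p) : u⁻¹ * x * u ∈ Dd P p :=
  ⟨(hu x).1 hx.1, fun g hg => by
    have h1 := hx.2 _ ((hu.inv g).1 hg)
    have e : g = u⁻¹ * (u⁻¹⁻¹ * g * u⁻¹) * u := by group
    rw [e, kp_conj]
    refine ⟨hu.zc h1.1, ?_⟩
    have := conj_pow (a := u⁻¹) (b := kp x (u⁻¹⁻¹ * g * u⁻¹)) (i := p)
    rw [inv_inv] at this
    rw [inv_inv] at h1
    rw [inv_inv, this, h1.2, mul_one, inv_mul_cancel]⟩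

theorem Nz.dd_iff {u x : E} (hu : Nz P u) : u⁻¹ * x * u ∈ Dd P p ↔ x ∈ Dd P p :=
  ⟨fun h => by simpa [mul_assoc] using hu.inv.dd h, hu.dd⟩

theorem conj_eq {x g : E} (hx : x ∈ Dd P p) (hg : g ∈ P) : g⁻¹ * x * g = kp x g * x := by
  rw [mul_assoc, kp_eq x g, ← mul_assoc, ← mul_assoc, mul_assoc g⁻¹, (hx.2 g hg).1.2 g hg]
  group

/-- twisted characters -/
structure Tw (P : Subgroup E) (p h : ℕ) (l : E → Om) : Prop where
  off : ∀ x, x ∉ Dd P p → l x = 0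
  one : l 1 = 1
  ne : ∀ x ∈ Dd P p, l x ≠ 0
  mul : ∀ x ∈ Dd P p, ∀ y ∈ Dd P p, l (x * y) = l x * l y * l (kp x y) ^ h

variable {l l' : E → Om}

theorem Tw.zmul (t : Tw P p h l) {z x : E} (hz : Zc P z) (hx : x ∈ Dd P p) :
    l (z * x) = l z * l x := by
  rw [t.mul z hz.mem x hx, hz.kp hx.1, t.one, one_pow, mul_one]

theorem Tw.pow (t : Tw P p h l) {x : E} (hx : x ∈ Dd P p) (n : ℕ) : l (x ^ n) = l x ^ n := by
  induction n with
  | zero => simpa using t.one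
  | succ n ih =>
    rw [pow_succ, t.mul _ (pow_mem hx n) x hx, kp_of_comm (pow_mul_comm' x n), t.one, one_pow,
      mul_one, ih, pow_succ]

theorem Tw.left (t : Tw P p h l) {x y g : E} (hx : x ∈ Dd P p) (hy : y ∈ Dd P p) (hg : g ∈ P) :
    l (kp (x * y) g) = l (kp x g) * l (kp y g) := by
  rw [kp_mul_left ((hy.2 g hg).1.2 x hx.1), t.zmul (hy.2 g hg).1 (hx.2 g hg).1.mem, mul_comm]

theorem Tw.right (t : Tw P p h l) {x g u : E} (hx : x ∈ Dd P p) (hg : g ∈ P) (hu : u ∈ P) :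
    l (kp x (g * u)) = l (kp x g) * l (kp x u) := by
  rw [kp_mul_right ((hx.2 u hu).1.2 g hg), t.zmul (hx.2 g hg).1 (hx.2 u hu).1.mem]

theorem Tw.right_one (t : Tw P p h l) (x : E) : l (kp x 1) = 1 := by
  rw [kp_of_comm (by simp), t.one]

theorem Tw.root (t : Tw P p h l) {x g : E} (hx : x ∈ Dd P p) (hg : g ∈ P) :
    l (kp x g) ^ p = 1 := by
  rw [← t.pow (hx.2 g hg).1.mem, (hx.2 g hg).2, t.one]

theorem Tw.right_pow (t : Tw P p h l) {x g : E} (hx : x ∈ Dd P p) (hg : g ∈ P) (n : ℕ) :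
    l (kp x (g ^ n)) = l (kp x g) ^ n := by
  induction n with
  | zero => rw [pow_zero, pow_zero, t.right_one]
  | succ n ih => rw [pow_succ, t.right hx (P.pow_mem hg n) hg, ih, pow_succ]

theorem Tw.conj (t : Tw P p h l) {g : E} (hg : g ∈ P) (x : E) :
    l (g⁻¹ * x * g) = l (kp x g) * l x := by
  by_cases hx : x ∈ Dd P p
  · rw [conj_eq hx hg, t.zmul (hx.2 g hg).1 hx]
  · rw [t.off x hx, t.off _ (mt (Nz.of_mem hg).dd_iff.1 hx), mul_zero]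

/-- the radical -/
def Rad (P : Subgroup E) (p : ℕ) (l : E → Om) (x : E) : Prop :=
  x ∈ Dd P p ∧ ∀ g ∈ P, l (kp x g) = 1

theorem Tw.rad (t : Tw P p h l) {z : E} (hz : Zc P z) : Rad P p l z :=
  ⟨hz.mem, fun g hg => by rw [hz.kp hg, t.one]⟩

theorem Tw.sep [Finite P] (t : Tw P p h l) (t' : Tw P p h l')
    (he : ∀ x, Rad P p l x → Rad P p l' x → l x = l' x) :
    ∃ g ∈ P, ∀ x, l (g⁻¹ * x * g) = l' x := by
  have : Finite (Dd P p) :=
    Finite.of_injective _ (Subgroup.inclusion_injective (fun x hx => hx.1 : Dd P p ≤ P))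
  have hz : ∀ x ∈ Dd P p, ∀ g ∈ P, l (kp x g) = l' (kp x g) := fun x hx g hg =>
    he _ (t.rad (hx.2 g hg).1) (t'.rad (hx.2 g hg).1)
  obtain ⟨g, hg⟩ := pairing (A := Dd P p) (B := P) (fun x g => l (kp x g))
    (fun x => l x / l' x) (fun x y g => t.left x.2 y.2 g.2)
    (fun g => by rw [Subgroup.coe_one, Zc.one.kp g.2, t.one])
    (fun x g u => t.right x.2 g.2 u.2) (fun x => t.right_one x)
    (fun x y => by
      rw [Subgroup.coe_mul, t.mul _ x.2 _ y.2, t'.mul _ x.2 _ y.2, hz _ x.2 _ y.2.1,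
        mul_div_mul_right _ _ (pow_ne_zero h (t'.ne _ (x.2.2 _ y.2.1).1.mem)), mul_div_mul_comm])
    (fun x hx => by
      rw [he x ⟨x.2, fun g hg => hx ⟨g, hg⟩⟩
        ⟨x.2, fun g hg => (hz _ x.2 g hg).symm.trans (hx ⟨g, hg⟩)⟩, div_self (t'.ne _ x.2)])
  refine ⟨g, g.2, fun x => ?_⟩
  rw [t.conj g.2]
  by_cases hx : x ∈ Dd P p
  · have := hg ⟨x, hx⟩
    rwa [← mul_div_assoc, div_eq_one_iff_eq (t'.ne x hx)] at this
  · rw [t.off x hx, t'.off x hx, mul_zero]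

theorem Tw.act (t : Tw P p h l) {u : E} (hu : Nz P u) (σ : Ga) :
    Tw P p h fun x => σ (l (u⁻¹ * x * u)) where
  off x hx := by rw [t.off _ (mt hu.dd_iff.1 hx), map_zero]
  one := by rw [mul_one, inv_mul_cancel, t.one, map_one]
  ne x hx := by simpa using t.ne _ (hu.dd hx)
  mul x hx y hy := by
    rw [← kp_conj, ← map_pow, ← map_mul, ← map_mul, ← t.mul _ (hu.dd hx) _ (hu.dd hy)]
    congr 2
    group

theorem exists_dd {G : Subgroup E} (hN : Nil G) (hp : p.Prime)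
    (hP : ∀ g, g ∈ P ↔ g ∈ G ∧ IsP p g) {g u : E} (hg : g ∈ P) (hu : u ∈ P)
    (hne : g * u ≠ u * g) : ∃ y ∈ Dd P p, ∃ g ∈ P, kp y g ≠ 1 := by
  classical
  obtain ⟨x, hx, px, h1, h2⟩ := hN.desc (Zc P) p hp Zc.one g ((hP g).1 hg).1 ((hP g).1 hg).2
    fun h => hne (h.2 u hu)
  have hxP : x ∈ P := (hP x).2 ⟨hx, px⟩
  have h3 : ∀ g ∈ P, Zc P (kp x g) := fun g hg => h2 g ((hP g).1 hg).1
  have hex : ∃ k, Zc P (x ^ p ^ k) := by
    obtain ⟨k, hk⟩ := px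
    exact ⟨k, hk ▸ Zc.one⟩
  have h4 := Nat.find_spec hex
  obtain ⟨j, hj⟩ : ∃ j, Nat.find hex = j + 1 := Nat.exists_eq_succ_of_ne_zero fun h0 =>
    h1 (by simpa [h0] using h4)
  have h5 : ¬ Zc P (x ^ p ^ j) := Nat.find_min hex (by omega)
  rw [hj] at h4
  refine ⟨x ^ p ^ j, ⟨P.pow_mem hxP _, fun g hg => ?_⟩, ?_⟩
  · rw [kp_pow_left hxP (h3 g hg)]
    refine ⟨(h3 g hg).pow _, ?_⟩
    rw [← pow_mul, ← pow_succ, ← kp_pow_left hxP (h3 g hg), h4.kp hg]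
  · by_contra hn
    push Not at hn
    exact h5 ⟨P.pow_mem hxP _, fun g hg => comm_of_kp (hn g hg)⟩

end Grp

end Pool.Agent.MP_db5b97_nt.H79
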